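import Pool.Agent.Helper68.KPR.St

/-!
# Project KP, chapter A part R, module RHT: the trace is homogeneous
-/

set_option autoImplicit false

namespace Pool.Agent.Helper36.KPR

open Pool.Agent.Helper52.KP Pool.Agent.Helper5.KPA Pool.Agent.Helper68.KPR MvPolynomial

/-- scaling of a graded algebra -/
theorem rht_sc {D : Type} [CommRing D] [Algebra ℂ D] (G : ℕ → Submodule ℂ D) (hi : iSupIndep G)
    (ht : (⨆ k, G k) = ⊤) (h1 : 1 ∈ G 0)
    (hm : ∀ i j x y, x ∈ G i → y ∈ G j → x * y ∈ G (i + j)) (c : ℂ) :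
    ∃ σ : D →ₐ[ℂ] D, ∀ i x, x ∈ G i → σ x = c ^ i • x := by
  classical
  let i1 : SetLike.GradedMonoid G :=
    { one_mem := h1, mul_mem := fun i j x y hx hy => hm i j x y hx hy }
  have hint : DirectSum.IsInternal G :=
    DirectSum.isInternal_submodule_of_iSupIndep_of_iSup_eq_top hi ht
  let i2 : DirectSum.Decomposition G := hint.chooseDecomposition
  let i3 : GradedAlgebra G := { i1, i2 with }
  let f : ∀ i, G i →ₗ[ℂ] D := fun i => (c ^ i) • (G i).subtype
  have hone : f 0 (GradedMonoid.GOne.one (A := fun i => G i)) = 1 := by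
    show c ^ 0 • (1 : D) = 1
    rw [pow_zero, one_smul]
  have hmul : ∀ {i j} (ai : G i) (aj : G j), f (i + j)
      (GradedMonoid.GMul.mul (A := fun i => G i) ai aj)
      = f i ai * f j aj := fun {i j} ai aj => by
    show c ^ (i + j) • ((ai : D) * aj) = (c ^ i • (ai : D)) * (c ^ j • (aj : D))
    rw [smul_mul_smul_comm, pow_add]
  refine ⟨(DirectSum.toAlgebra ℂ (fun i => G i) f hone hmul).comp
    (DirectSum.decomposeAlgEquiv G).toAlgHom, fun i x hx => ?_⟩
  show DirectSum.toAlgebra ℂ (fun i => G i) f hone hmul (DirectSum.decompose G x) = _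
  rw [DirectSum.decompose_of_mem G hx]
  exact DirectSum.toSemiring_of (fun i => (f i).toAddMonoidHom) hone hmul i ⟨x, hx⟩

theorem rht_equiv {D : Type} [CommRing D] [Algebra ℂ D] (G : ℕ → Submodule ℂ D) (hi : iSupIndep G)
    (ht : (⨆ k, G k) = ⊤) (h1 : 1 ∈ G 0)
    (hm : ∀ i j x y, x ∈ G i → y ∈ G j → x * y ∈ G (i + j)) :
    ∃ σ : D ≃ₐ[ℂ] D, ∀ i x, x ∈ G i → σ x = (2 : ℂ) ^ i • x := by
  obtain ⟨σ, hσ⟩ := rht_sc G hi ht h1 hm 2
  obtain ⟨σ', hσ'⟩ := rht_sc G hi ht h1 hm (2 : ℂ)⁻¹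
  have h2 : ∀ x, σ' (σ x) = x := by
    intro x
    have hx : x ∈ ⨆ k, G k := by
      rw [ht]
      trivial
    refine Submodule.iSup_induction G (motive := fun x => σ' (σ x) = x) hx ?_ (by simp) ?_
    · intro i y hy
      rw [hσ i y hy, map_smul, hσ' i y hy, smul_smul, ← mul_pow]
      norm_num
    · intro y z hy hz
      rw [map_add, map_add, hy, hz]
  have h3 : ∀ x, σ (σ' x) = x := by
    intro x
    have hx : x ∈ ⨆ k, G k := by
      rw [ht]
      trivial
    refine Submodule.iSup_induction G (motive := fun x => σ (σ' x) = x) hx ?_ (by simp) ?_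
    · intro i y hy
      rw [hσ' i y hy, map_smul, hσ i y hy, smul_smul, ← mul_pow]
      norm_num
    · intro y z hy hz
      rw [map_add, map_add, hy, hz]
  exact ⟨AlgEquiv.ofAlgHom σ σ' (AlgHom.ext h3) (AlgHom.ext h2), fun i x hx => hσ i x hx⟩

/-- scaling of polynomials -/
theorem rht_coeff {m : ℕ} (c : ℂ) (p : MvPolynomial (Fin m) ℂ) (d : Fin m →₀ ℕ) :
    coeff d (aeval (fun l => C c * X l : Fin m → MvPolynomial (Fin m) ℂ) p)
      = c ^ d.degree * coeff d p := by
  induction p using MvPolynomial.induction_on' with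
  | monomial e a =>
    have h1 : aeval (fun l => C c * X l : Fin m → MvPolynomial (Fin m) ℂ) (monomial e a)
        = monomial e (c ^ e.degree * a) := by
      rw [aeval_monomial, Finsupp.prod, Finset.prod_congr rfl fun l _ => mul_pow (C c) (X l) (e l),
        Finset.prod_mul_distrib, Finset.prod_pow_eq_pow_sum]
      rw [show ∏ i ∈ e.support, (X i : MvPolynomial (Fin m) ℂ) ^ e i = monomial e 1 from ?_]
      · rw [← C_pow, algebraMap_eq, ← mul_assoc, ← C_mul, C_mul_monomial, mul_one]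
        congr 1
        rw [mul_comm]
        rfl
      · rw [monomial_eq]
        simp [Finsupp.prod]
    rw [h1, coeff_monomial, coeff_monomial]
    by_cases h : e = d
    · rw [if_pos h, if_pos h, h]
    · rw [if_neg h, if_neg h, mul_zero]
  | add p q hp hq =>
    rw [map_add, coeff_add, coeff_add, hp, hq, mul_add]

/-- scaling of the variables -/
noncomputable def tsc (m : ℕ) (c : ℂ) : MvPolynomial (Fin m) ℂ →ₐ[ℂ] MvPolynomial (Fin m) ℂ :=
  aeval (fun l => C c * X l : Fin m → MvPolynomial (Fin m) ℂ)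

theorem tsc_coeff (m : ℕ) (c : ℂ) (p : MvPolynomial (Fin m) ℂ) (d : Fin m →₀ ℕ) :
    coeff d (tsc m c p) = c ^ d.degree * coeff d p := rht_coeff c p d

theorem tsc_tsc (m : ℕ) (c c' : ℂ) (h : c * c' = 1) : (tsc m c).comp (tsc m c') = AlgHom.id ℂ _ := by
  refine AlgHom.ext fun p => ?_
  rw [AlgHom.comp_apply, AlgHom.id_apply]
  refine MvPolynomial.ext _ _ fun d => ?_
  rw [tsc_coeff, tsc_coeff, ← mul_assoc, ← mul_pow, h, one_pow, one_mul]

/-- scaling of the variables as an automorphism -/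
noncomputable def tse (m : ℕ) : MvPolynomial (Fin m) ℂ ≃ₐ[ℂ] MvPolynomial (Fin m) ℂ :=
  AlgEquiv.ofAlgHom (tsc m 2) (tsc m 2⁻¹) (tsc_tsc m 2 2⁻¹ (by norm_num))
    (tsc_tsc m 2⁻¹ 2 (by norm_num))

theorem rht_tau (m : ℕ) : ∃ τ : MvPolynomial (Fin m) ℂ ≃ₐ[ℂ] MvPolynomial (Fin m) ℂ,
    (∀ l, τ (X l) = C 2 * X l) ∧ ∀ p d, coeff d (τ p) = (2 : ℂ) ^ d.degree * coeff d p := by
  refine ⟨tse m, fun l => ?_, fun p d => tsc_coeff m 2 p d⟩
  have h1 : tse m (X l) = tsc m 2 (X l) := rfl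
  rw [h1, tsc, aeval_X]

theorem hRHT : StRHT := by
  intro m D K L _ _ _ _ _ _ _ _ _ _ _ _ _ _ _ _ _ G hi ht h1 hm hX k b p hb htr
  obtain ⟨σ, hσ⟩ := rht_equiv G hi ht h1 hm
  obtain ⟨τ, hτX, hτ⟩ := rht_tau m
  have hcomm : ∀ q : MvPolynomial (Fin m) ℂ, σ (algebraMap (MvPolynomial (Fin m) ℂ) D q)
      = algebraMap (MvPolynomial (Fin m) ℂ) D (τ q) := by
    intro q
    have h2 : (σ : D →ₐ[ℂ] D).comp (IsScalarTower.toAlgHom ℂ (MvPolynomial (Fin m) ℂ) D)
        = (IsScalarTower.toAlgHom ℂ (MvPolynomial (Fin m) ℂ) D).comp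
          (τ : MvPolynomial (Fin m) ℂ →ₐ[ℂ] MvPolynomial (Fin m) ℂ) := by
      refine MvPolynomial.algHom_ext fun l => ?_
      show σ (algebraMap (MvPolynomial (Fin m) ℂ) D (X l))
        = algebraMap (MvPolynomial (Fin m) ℂ) D (τ (X l))
      rw [hσ 1 _ (hX l), pow_one, hτX, map_mul, ← MvPolynomial.algebraMap_eq,
        ← IsScalarTower.algebraMap_apply, Algebra.smul_def]
    exact congrArg (fun f : MvPolynomial (Fin m) ℂ →ₐ[ℂ] D => f q) h2
  let σL : L ≃+* L := IsFractionRing.ringEquivOfRingEquiv (A := D) (B := D) σ.toRingEquiv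
  let τK : K ≃+* K := IsFractionRing.ringEquivOfRingEquiv (A := MvPolynomial (Fin m) ℂ)
    (B := MvPolynomial (Fin m) ℂ) τ.toRingEquiv
  have hσL : ∀ x : D, σL (algebraMap D L x) = algebraMap D L (σ x) := fun x =>
    IsFractionRing.ringEquivOfRingEquiv_algebraMap σ.toRingEquiv x
  have hτK : ∀ q : MvPolynomial (Fin m) ℂ, τK (algebraMap (MvPolynomial (Fin m) ℂ) K q)
      = algebraMap (MvPolynomial (Fin m) ℂ) K (τ q) := fun q =>
    IsFractionRing.ringEquivOfRingEquiv_algebraMap τ.toRingEquiv q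
  have he : RingHom.comp (algebraMap K L) (τK : K →+* K)
      = RingHom.comp (σL : L →+* L) (algebraMap K L) := by
    refine IsLocalization.ringHom_ext (nonZeroDivisors (MvPolynomial (Fin m) ℂ)) ?_
    refine RingHom.ext fun q => ?_
    show algebraMap K L (τK (algebraMap (MvPolynomial (Fin m) ℂ) K q))
      = σL (algebraMap K L (algebraMap (MvPolynomial (Fin m) ℂ) K q))
    rw [hτK, ← IsScalarTower.algebraMap_apply, ← IsScalarTower.algebraMap_apply,
      IsScalarTower.algebraMap_apply (MvPolynomial (Fin m) ℂ) D L,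
      IsScalarTower.algebraMap_apply (MvPolynomial (Fin m) ℂ) D L, hσL, hcomm]
  have h3 := Algebra.trace_eq_of_equiv_equiv τK σL he (algebraMap D L b)
  have h4 : τK (Algebra.trace K L (algebraMap D L b)) = Algebra.trace K L (σL (algebraMap D L b)) := by
    rw [h3, RingEquiv.apply_symm_apply]
  have h5 : σ b = (2 ^ k : ℕ) • b := by
    rw [hσ k b hb, ← Nat.cast_smul_eq_nsmul ℂ]
    push_cast
    rfl
  rw [hσL, h5, map_nsmul, map_nsmul, htr, hτK, ← map_nsmul] at h4
  have h6 : τ p = (2 ^ k : ℕ) • p :=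
    IsFractionRing.injective (MvPolynomial (Fin m) ℂ) K h4
  have h7 : p.IsHomogeneous k := by
    intro d hd
    have h8 := hτ p d
    rw [h6, coeff_smul, nsmul_eq_mul] at h8
    have h9 := mul_right_cancel₀ hd h8
    have h10 : (2 : ℕ) ^ k = 2 ^ d.degree := by exact_mod_cast h9
    have h11 : k = d.degree := Nat.pow_right_injective le_rfl h10
    rw [h11, Finsupp.degree_eq_weight_one]
    rfl
  unfold hp
  rw [if_pos (Int.natCast_nonneg k), Int.toNat_natCast]
  exact (mem_homogeneousSubmodule _ _).2 h7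

end Pool.Agent.Helper36.KPR
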